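import Pool.Agent.J4.H74.FermLM

/-!
# Vojta's conjecture for the algebraic points of covers of projective space above the points whose
coordinates are values of multiplicative functions

Let `K` be a number field of degree `d` with integral basis `ω_1, …, ω_d`, `n ≥ 1`, and let
`F_0, …, F_{q-1}` be forms of degree `k` in `n + 1` variables over the integers of `K`, irreducible
over `K`, pairwise not associated, without a common zero in `ℙⁿ`. For `M ≥ 1` let `X_M` be the cover

  `(y_0 ^ M : … : y_{q-1} ^ M) = (F_0(x) : … : F_{q-1}(x))`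

of `ℙⁿ` (for linear forms in general position: a smooth complete intersection in `ℙ^{q-1}`), and let
`D` be the divisor `y_0 ⋯ y_{q-1} = 0` on `X_M`. If the hypersurfaces `F_j = 0` have normal crossings,
then `X_M` is smooth, `D` has normal crossings, and as `M h(y) = k h(x) + O(1)` we have
`h_{K_X}(P) = (M (q - (n + 1) / k) - q) h(y) + O(1)`. So Vojta's inequality for the algebraic points
`P = (x, y)` of `X_M` with the term `ε M h(y)` is

  `(θ M - q) h(y) + ∑_{ν ∈ S} λ_D(P, ν) ≤ d_K(P) + c`,  where `θ = q - (n + 1) / k - ε`.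

Let `f_{il}` be `(n + 1) d` multiplicative functions from the class described below, for example
Euler's function and the sum of the divisors. We prove this inequality for ALL algebraic points `P` of
ALL covers `X_M`, `M ≥ 1`, above the points `x = (x_0 : … : x_n)` with `x_i = ∑_l f_{il}(a_{il}) ω_l`,
and above all points `x` with integral coordinates near them, for all tuples
`a = (a_{il})` in `[1, N] ^ ((n + 1) d)` outside of a set of at most
`N ^ ((n + 1) d) / (log N) ^ U` elements. Here `θ k < ∑ m_j`, where `m_j = k` if `k ≤ 2` and in general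
`m_j = 1` (or the dimension of the space of the linear forms, if `F_j` is a norm form); so for
hyperplanes and quadrics all `θ < q` are allowed.

The values of `f_{il}` are taken with very large multiplicities (and have density zero), and so this
does not follow from bounds for the number of exceptional points alone. The proof combines the sparse
exceptional sets of `R366/NF`, the theorem `keep_tuples2` of `N733/TG` and the pointwise inequality
`key'` of `TH905/VF` (all from the starting files).
-/

set_option autoImplicit false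

namespace Pool.Agent.Results.MP_71c16a_nt.MultiplicativeBasePoints

open MvPolynomial NumberField IsDedekindDomain

/-- `f` is multiplicative, positive and of polynomial growth, and for the large primes `p` we have
`f(p) ≤ M p`, and different large primes have different values -/
structure LinearAtPrimes (f : ℕ → ℕ) : Prop where
  mul : ∀ m n : ℕ, Nat.Coprime m n → f (m * n) = f m * f n
  pos : ∀ m : ℕ, 1 ≤ m → 1 ≤ f m
  growth : ∃ C D : ℕ, ∀ m : ℕ, 1 ≤ m → f m ≤ C * m ^ D
  prime : ∃ P M : ℕ, ∀ p : ℕ, P ≤ p → p.Prime →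
    f p ≤ M * p ∧ ∀ q : ℕ, P ≤ q → q.Prime → f q = f p → q = p

/-- `F` is, up to a constant factor, the norm form of `∑ α i * x i` from an extension `E` of `K`, and
`m` of the `α i` are linearly independent over `K`. -/
def IsNormForm {K : Type} [Field K] [NumberField K] {n : ℕ} (F : MvPolynomial (Fin (n + 1)) (𝓞 K))
    (m : ℕ) : Prop :=
  ∃ (E : Type) (_ : Field E) (_ : NumberField E) (_ : Algebra K E) (c : K) (α : Fin (n + 1) → E)
    (J : Finset (Fin (n + 1))), c ≠ 0 ∧ J.card = m ∧
      LinearIndependent K (fun j : J => α j) ∧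
      ∀ x : Fin (n + 1) → 𝓞 K, ((eval x F : 𝓞 K) : K) =
        c * Algebra.norm K (∑ i, algebraMap K E (x i) * α i)

/-- The logarithmic height, relative to `K`, of the point with homogeneous coordinates `y` in the
extension `L` of `K`. -/
noncomputable def height (K : Type) {L : Type} [Field K] [NumberField K] [Field L] [NumberField L]
    [Algebra K L] {q : ℕ} (y : Fin q → L) : ℝ := Height.logHeight y / Module.finrank K L

/-- The logarithmic discriminant `log |disc L| / [L : K] - log |disc K|`. -/
noncomputable def logDisc (K L : Type) [Field K] [NumberField K] [Field L] [NumberField L]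
    [Algebra K L] : ℝ :=
  Real.log |(discr L : ℝ)| / Module.finrank K L - Real.log |(discr K : ℝ)|

/-- The local Weil function `∑ i, log (max_j |y_j| / |y_i|)` of the divisor `y_0 ⋯ y_{q-1} = 0`, for an
absolute value. -/
noncomputable def weil {L : Type} [Field L] {q : ℕ} (f : AbsoluteValue L ℝ) (y : Fin q → L) : ℝ :=
  ∑ i, Real.log ((⨆ j, f (y j)) / f (y i))

/-- The proximity function `∑_{ν ∈ S} λ_D(P, ν)`, relative to `K`, where `S` consists of the
archimedean places and of the primes in the finite set `S`: the sum of the local Weil functions over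
the infinite places `w` of `L` (with the factor `[L_w : ℝ]`) and over the primes of `L` above the
primes in `S` (with the absolute value `N(w) ^ (- ord_w)`), divided by `[L : K]`. -/
noncomputable def proximity {K L : Type} [Field K] [NumberField K] [Field L] [NumberField L]
    [Algebra K L] {q : ℕ} (S : Finset (HeightOneSpectrum (𝓞 K))) (y : Fin q → L) : ℝ :=
  (∑ w : InfinitePlace L, (w.mult : ℝ) * weil w.1 y +
    ∑ᶠ w ∈ {w : HeightOneSpectrum (𝓞 L) | ∃ v ∈ S, w.asIdeal.LiesOver v.asIdeal},
      weil (FinitePlace.mk w).1 y) / Module.finrank K L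

/-- All algebraic points `P = (x, y)` of all covers `X_M`, `M ≥ 1`, above the point with integral
coordinates `x`: for each number field `L` containing `K`, all `y` in `L ^ q` and `t ≠ 0` in `L` with
`y_j ^ M = t F_j(x)` for all `j`,
`(θ M - q) h(y) + ∑_{ν ∈ S} λ_D(P, ν) ≤ d_K(L) + c`. -/
def VojtaAbove {K : Type} [Field K] [NumberField K] {n q : ℕ}
    (S : Finset (HeightOneSpectrum (𝓞 K))) (F : Fin q → MvPolynomial (Fin (n + 1)) (𝓞 K))
    (θ c : ℝ) (x : Fin (n + 1) → 𝓞 K) : Prop :=
  ∀ (M : ℕ) (L : Type) [Field L] [NumberField L] [Algebra K L] (y : Fin q → L) (t : L),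
    1 ≤ M → t ≠ 0 → (∀ j, y j ^ M = t * algebraMap K L ((eval x (F j) : 𝓞 K) : K)) →
      (θ * M - q) * height K y + proximity S y ≤ logDisc K L + c

/-- the indices of the integral basis of `K` -/
abbrev Idx (K : Type) [Field K] [NumberField K] : Type := Module.Free.ChooseBasisIndex ℤ (𝓞 K)

/-- **Vojta's inequality for the algebraic points above the points whose coordinates are (near)
values of multiplicative functions.** Let `F_j`, `j < q`, be forms of the same degree `k` over the
integers of the number field `K` in `n + 1 ≥ 2` variables, irreducible over `K`, pairwise not associated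
and without common zeros in `ℙⁿ` (that is, each variable is in the radical of the ideal generated by
them), with weights `m_j` (`m_j ≤ 1`, or `m_j ≤ k ≤ 2`, or `F_j` is a norm form of linear forms spanning
a space of dimension `m_j`), `S` a finite set of primes of `K`, `c` real, `θ ≥ 0` and
`θ k < ∑ m_j`. There is `κ > 0` such that for all functions `f_{il}` which are `LinearAtPrimes`, all
`U` and all large `N`: for all `a = (a_{il})`, `1 ≤ a_{il} ≤ N`, with at most
`N ^ ((n + 1) d) / (log N) ^ U` exceptions, `d = [K : ℚ]`, EVERY vector `x` of integers of `K`, whose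
coordinates with respect to the integral basis are within `f_{il}(a_{il}) ^ κ` of `f_{il}(a_{il})`,
satisfies `F_j(x) ≠ 0` for all `j`, and `VojtaAbove S F θ c x`: Vojta's inequality holds for all algebraic
points above `x` of all covers. Euler's function and the sum of the divisors are `LinearAtPrimes`. -/
theorem result (K : Type) [Field K] [NumberField K] (n q : ℕ) (hn : 1 ≤ n)
    (F : Fin q → MvPolynomial (Fin (n + 1)) (𝓞 K)) (k : ℕ) (m : Fin q → ℕ)
    (hhom : ∀ j, (F j).IsHomogeneous k)
    (hirr : ∀ j, Irreducible (map (algebraMap (𝓞 K) K) (F j)))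
    (hdist : ∀ i j, i ≠ j →
      ¬ Associated (map (algebraMap (𝓞 K) K) (F i)) (map (algebraMap (𝓞 K) K) (F j)))
    (hm : ∀ j, m j ≤ 1 ∨ (m j ≤ k ∧ k ≤ 2) ∨ IsNormForm (F j) (m j))
    (hnull : ∀ i, (X i : MvPolynomial (Fin (n + 1)) K) ∈
      (Ideal.span (Set.range fun j => map (algebraMap (𝓞 K) K) (F j))).radical)
    (S : Finset (HeightOneSpectrum (𝓞 K))) (θ c : ℝ) (hθ0 : 0 ≤ θ)
    (hθ : θ * k < ∑ j, (m j : ℝ)) :
    (∃ κ : ℝ, 0 < κ ∧ ∀ f : Fin (n + 1) × Idx K → ℕ → ℕ, (∀ z, LinearAtPrimes (f z)) → ∀ U : ℕ,
      ∃ N₀ : ℕ, ∀ N : ℕ, N₀ ≤ N →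
        (Set.ncard {a : Fin (n + 1) × Idx K → ℕ | (∀ z, 1 ≤ a z ∧ a z ≤ N) ∧
          ¬ ∀ x : Fin (n + 1) → 𝓞 K,
            (∀ i l, |(((RingOfIntegers.basis K).repr (x i) l : ℤ) : ℝ) - f (i, l) (a (i, l))| ≤
              (f (i, l) (a (i, l)) : ℝ) ^ κ) →
            (∀ j, eval x (F j) ≠ 0) ∧ VojtaAbove S F θ c x} : ℝ) ≤
          (N : ℝ) ^ ((n + 1) * Module.finrank ℚ K) / Real.log N ^ U) ∧
    LinearAtPrimes Nat.totient ∧ LinearAtPrimes (fun m => ∑ d ∈ m.divisors, d) := by
  refine ⟨?_, ?_, ?_⟩
  · obtain ⟨κ, hκ, h⟩ := Pool.Agent.J4.H74.FermLM.lm_of_sparse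
      (fun x : Fin (n + 1) → 𝓞 K => (∀ j, eval x (F j) ≠ 0) ∧ VojtaAbove S F θ c x) (by
        intro N e
        refine (Pool.Agent.J4.H74.FermLM.sparse_ferm hn e F k m hhom hirr hdist hm hnull S θ c hθ0
          hθ).mono ?_
        intro B u _ _ hbad hgood
        apply hbad
        refine ⟨hgood.1, ?_⟩
        intro M L _ _ _ y t hM ht hy
        by_contra hcon
        rw [not_le] at hcon
        exact hgood.2 ⟨M, L, _, _, _, y, t, hM, ht, hy, hcon⟩)
    refine ⟨κ, hκ, fun f hf U => ?_⟩
    obtain ⟨N₀, hN₀⟩ := h f (fun z => ⟨(hf z).mul, (hf z).pos, (hf z).growth, (hf z).prime⟩) U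
    exact ⟨N₀, fun N hN => hN₀ N hN⟩
  · have h := Pool.Agent.N733.TG.lm_totient
    exact ⟨h.mul, h.pos, h.growth, h.prime⟩
  · have h := Pool.Agent.N733.TG.lm_sigma
    exact ⟨h.mul, h.pos, h.growth, h.prime⟩

end Pool.Agent.Results.MP_71c16a_nt.MultiplicativeBasePoints
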